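import Mathlib
import Pool.Agent.H359Z.Sidon9

set_option autoImplicit false

namespace Pool.Agent.Results.MP_644501_co.ExpNine

open Pool.Agent.H359Z.Sidon9

theorem core (F K : Type) [Field F] [Field K] [Algebra F K] [Algebra (ZMod 3) F]
    [Algebra (ZMod 3) K] [IsScalarTower (ZMod 3) F K] [Finite F] [Finite K] (a m : ℕ)
    (hF : Module.finrank (ZMod 3) F = a) (hK : Module.finrank F K = m + 1) :
    ∃ A : Finset ((Fin a → ZMod 9) × (Fin (2 * a * m) → ZMod 3)),
      (∀ x ∈ A, ∀ y ∈ A, ∀ z ∈ A, ∀ w ∈ A,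
        x + y = z + w → (x = z ∧ y = w) ∨ (x = w ∧ y = z)) ∧
      3 * A.card = 3 ^ (a * (m + 1)) := by
  classical
  have : Fact (Nat.Prime 3) := ⟨by norm_num⟩
  have : CharP K 3 := charP_of_injective_algebraMap (algebraMap (ZMod 3) K).injective 3
  have h3 : (3 : K) = 0 := by exact_mod_cast CharP.cast_eq_zero K 3
  obtain ⟨τ, hτ⟩ := LinearMap.exists_leftInverse_of_injective (Algebra.linearMap F K)
    (LinearMap.ker_eq_bot.2 (algebraMap F K).injective)
  have hτa : ∀ c : F, τ (algebraMap F K c) = c := fun c => LinearMap.congr_fun hτ c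
  obtain ⟨lam, hlam⟩ := LinearMap.exists_leftInverse_of_injective
    (Algebra.linearMap (ZMod 3) F) (LinearMap.ker_eq_bot.2 (algebraMap (ZMod 3) F).injective)
  have hlama : ∀ c : ZMod 3, lam (algebraMap (ZMod 3) F c) = c :=
    fun c => LinearMap.congr_fun hlam c
  have hτs : Function.Surjective τ := fun c => ⟨_, hτa c⟩
  let N : Submodule F K := LinearMap.ker τ
  have hN : Module.finrank F N = m := by
    have := LinearMap.finrank_range_add_finrank_ker τ
    rw [LinearMap.range_eq_top.2 hτs, finrank_top, Module.finrank_self, hK] at this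
    simp only [N]; omega
  have hN3 : Module.finrank (ZMod 3) N = a * m := by
    rw [← Module.finrank_mul_finrank (ZMod 3) F N, hF, hN]
  let e : F ≃ₗ[ZMod 3] (Fin a → ZMod 3) := LinearEquiv.ofFinrankEq _ _ (by simp [hF])
  let e2 : (N × N) ≃ₗ[ZMod 3] (Fin (2 * a * m) → ZMod 3) :=
    LinearEquiv.ofFinrankEq _ _ (by simp [Module.finrank_prod, hN3]; ring)
  let π : K → N := fun x => ⟨x - algebraMap F K (τ x), by simp [N, hτa]⟩
  let φ : Fin a → (K →ₗ[ZMod 3] ZMod 3) := fun l =>
    (LinearMap.proj l) ∘ₗ (e : F →ₗ[ZMod 3] (Fin a → ZMod 3)) ∘ₗ (τ.restrictScalars (ZMod 3))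
  have hφ : ∀ u v : K, (∀ l, φ l u = φ l v) → τ u = τ v := by
    intro u v h
    apply e.injective
    funext l
    exact h l
  choose ψ hψ1 hψ2 using fun l => cube_lift K (φ l)
  let Ψ : K → (Fin a → ZMod 9) × (Fin (2 * a * m) → ZMod 3) := fun x =>
    (fun l => ψ l x + m3 (φ l (x ^ 2)), e2 (π (x ^ 3), π (x ^ 2)))
  let μ : K →ₗ[ZMod 3] ZMod 3 := lam ∘ₗ (τ.restrictScalars (ZMod 3))
  have key : ∀ x y z w : K, μ x = 0 → μ y = 0 → Ψ x + Ψ y = Ψ z + Ψ w →
      (x = z ∧ y = w) ∨ (x = w ∧ y = z) := by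
    intro x y z w hx hy h
    have h1 : ∀ l, ψ l x + m3 (φ l (x ^ 2)) + (ψ l y + m3 (φ l (y ^ 2))) =
        ψ l z + m3 (φ l (z ^ 2)) + (ψ l w + m3 (φ l (w ^ 2))) :=
      fun l => congrFun (congrArg Prod.fst h) l
    have h2 : (π (x ^ 3), π (x ^ 2)) + (π (y ^ 3), π (y ^ 2)) =
        (π (z ^ 3), π (z ^ 2)) + (π (w ^ 3), π (w ^ 2)) := by
      apply e2.injective
      rw [map_add, map_add]
      exact congrArg Prod.snd h
    have h21 : x ^ 3 - algebraMap F K (τ (x ^ 3)) + (y ^ 3 - algebraMap F K (τ (y ^ 3))) =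
        z ^ 3 - algebraMap F K (τ (z ^ 3)) + (w ^ 3 - algebraMap F K (τ (w ^ 3))) :=
      congrArg Subtype.val (congrArg Prod.fst h2)
    have h22 : x ^ 2 - algebraMap F K (τ (x ^ 2)) + (y ^ 2 - algebraMap F K (τ (y ^ 2))) =
        z ^ 2 - algebraMap F K (τ (z ^ 2)) + (w ^ 2 - algebraMap F K (τ (w ^ 2))) :=
      congrArg Subtype.val (congrArg Prod.snd h2)
    have h3' : τ (x ^ 3 + y ^ 3) = τ (z ^ 3 + w ^ 3) := by
      apply hφ
      intro l
      have := congrArg red (h1 l)
      simpa only [map_add, red_m3, hψ1, add_zero] using this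
    have h4 : x ^ 3 + y ^ 3 = z ^ 3 + w ^ 3 := by
      have := congrArg (algebraMap F K) h3'
      simp only [map_add] at this
      linear_combination h21 + this
    have hs : x + y = z + w := by
      have : (x + y - (z + w)) ^ 3 = 0 := by
        rw [sub_pow_char, add_pow_char, add_pow_char, h4, sub_self]
      exact sub_eq_zero.1 (pow_eq_zero_iff (by norm_num) |>.1 this)
    set u : K := x * y - z * w with hu
    have hsq : x ^ 2 + y ^ 2 - (z ^ 2 + w ^ 2) = u := by
      have : x + y - (z + w) = 0 := sub_eq_zero.2 hs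
      linear_combination (x + y + z + w) * this - u * h3
    have hua : u = algebraMap F K (τ u) := by
      rw [← hsq]
      simp only [map_add, map_sub]
      linear_combination h22
    have h5 : τ (x ^ 2 + y ^ 2 + z * w * (z + w)) = τ (z ^ 2 + w ^ 2 + x * y * (x + y)) := by
      apply hφ
      intro l
      apply m3_inj
      have e1 := hψ2 l x y
      have e2 := hψ2 l z w
      rw [hs] at e1
      simp only [map_add, m3_add]
      rw [hs]
      linear_combination h1 l + e1 - e2
    have h6 : τ (u * (1 - (x + y))) = 0 := by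
      have : u * (1 - (x + y)) = (x ^ 2 + y ^ 2 + z * w * (z + w)) -
          (z ^ 2 + w ^ 2 + x * y * (x + y)) := by
        rw [← hs]
        have : x ^ 2 + y ^ 2 - (z ^ 2 + w ^ 2) = x * y - z * w := hsq
        rw [hu]
        linear_combination -this
      rw [this, map_sub, h5, sub_self]
    have h7 : τ u * (1 - τ (x + y)) = 0 := by
      have h1' : τ 1 = 1 := by simpa using hτa 1
      rw [hua, ← Algebra.smul_def, map_smul, map_sub τ 1, h1', smul_eq_mul] at h6
      exact h6
    have h8 : τ (x + y) ≠ 1 := by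
      intro h9
      have h10 : μ (x + y) = 0 := by rw [map_add, hx, hy, add_zero]
      have h11 : μ (x + y) = 1 := by
        show lam (τ (x + y)) = 1
        rw [h9]; simpa using hlama 1
      rw [h10] at h11
      exact zero_ne_one h11
    have hu0 : u = 0 := by
      rcases mul_eq_zero.1 h7 with h9 | h9
      · rw [hua, h9, map_zero]
      · exact absurd (sub_eq_zero.1 h9).symm h8
    have hp : x * y = z * w := sub_eq_zero.1 hu0
    have : (x - z) * (x - w) = 0 := by linear_combination x * hs - hp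
    rcases mul_eq_zero.1 this with h9 | h9
    · left
      have := sub_eq_zero.1 h9
      exact ⟨this, by linear_combination hs - this⟩
    · right
      have := sub_eq_zero.1 h9
      exact ⟨this, by linear_combination hs - this⟩
  have : Fintype K := Fintype.ofFinite K
  let X : Finset K := Finset.univ.filter fun x => μ x = 0
  refine ⟨X.image Ψ, ?_, ?_⟩
  · intro x hx y hy z hz w hw h
    obtain ⟨x, hx', rfl⟩ := Finset.mem_image.1 hx
    obtain ⟨y, hy', rfl⟩ := Finset.mem_image.1 hy
    obtain ⟨z, -, rfl⟩ := Finset.mem_image.1 hz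
    obtain ⟨w, -, rfl⟩ := Finset.mem_image.1 hw
    rcases key x y z w (Finset.mem_filter.1 hx').2 (Finset.mem_filter.1 hy').2 h with
      ⟨rfl, rfl⟩ | ⟨rfl, rfl⟩
    · exact Or.inl ⟨rfl, rfl⟩
    · exact Or.inr ⟨rfl, rfl⟩
  · rw [Finset.card_image_of_injOn]
    · have hμs : Function.Surjective μ := by
        intro c
        refine ⟨algebraMap F K (algebraMap (ZMod 3) F c), ?_⟩
        show lam (τ _) = c
        rw [hτa, hlama]
      have hX : X.card = Nat.card (LinearMap.ker μ) := by
        rw [Nat.card_eq_fintype_card, Fintype.card_subtype]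
        congr 1
        ext x
        simp [X]
      have hr := LinearMap.finrank_range_add_finrank_ker μ
      rw [LinearMap.range_eq_top.2 hμs, finrank_top, Module.finrank_self,
        ← Module.finrank_mul_finrank (ZMod 3) F K, hF, hK] at hr
      rw [hX, Module.natCard_eq_pow_finrank (K := ZMod 3), ← hr, Nat.card_zmod, pow_add, pow_one]
    · intro x hx y hy h
      have hx' := (Finset.mem_filter.1 (Finset.mem_coe.1 hx)).2
      rcases key x x y x hx' hx' (by rw [h]) with ⟨h1, -⟩ | ⟨-, h1⟩
      · exact h1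
      · exact h1

/-- For a at least 1 and every m, the group (Z/9)^a x (Z/3)^(2am) has a Sidon set with at least
one third of the square root of its order many elements. -/
theorem result (a m : ℕ) (ha : 0 < a) :
    ∃ A : Finset ((Fin a → ZMod 9) × (Fin (2 * a * m) → ZMod 3)),
      (∀ x ∈ A, ∀ y ∈ A, ∀ z ∈ A, ∀ w ∈ A,
        x + y = z + w → (x = z ∧ y = w) ∨ (x = w ∧ y = z)) ∧
      (1 / 3 : ℝ) * Real.sqrt
        (Fintype.card ((Fin a → ZMod 9) × (Fin (2 * a * m) → ZMod 3)) : ℝ) ≤ (A.card : ℝ) := by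
  have : Fact (Nat.Prime 3) := ⟨by norm_num⟩
  obtain ⟨A, hA, hc⟩ := core (GaloisField 3 a) (FiniteField.Extension (GaloisField 3 a) 3 (m + 1))
    a m (GaloisField.finrank 3 ha.ne') (FiniteField.finrank_extension _ _ _)
  refine ⟨A, hA, ?_⟩
  have h1 : (Fintype.card ((Fin a → ZMod 9) × (Fin (2 * a * m) → ZMod 3)) : ℝ) =
      ((3 : ℝ) * A.card) ^ 2 := by
    have : ((3 : ℝ) * A.card) = 3 ^ (a * (m + 1)) := by exact_mod_cast hc
    rw [this]
    simp only [Fintype.card_prod, Fintype.card_pi, ZMod.card, Finset.prod_const, Finset.card_univ,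
      Fintype.card_fin]
    push_cast
    rw [show (9 : ℝ) = 3 ^ 2 by norm_num, ← pow_mul, ← pow_mul, ← pow_add]
    congr 1
    ring
  rw [h1, Real.sqrt_sq (by positivity)]
  linarith

end Pool.Agent.Results.MP_644501_co.ExpNine
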